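import Pool.Agent.ES38.LinearFinal

/-!
# MP_1cc704_an: stretching and the vorticity gradient

Definitions (file `Pool/Agent/ES38/Basic.lean`): `IsFlow`, `IsEuler`, `curl`, `grad`.
-/

open Set Pool.Agent.ES38

namespace Pool.Agent.Results.MP_1cc704_an.LinearStretch

/-- Let `u` be a smooth Euler flow on the open set `D` with flow map `Φ` preserving `D`, and let
`K T`, `M T` bound the velocity gradient and the vorticity gradient on the images, at times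
`0 ≤ t ≤ T`, of the segment `{A + x B}` (of length at most one). If the vorticity gradient is at
least `m` there, then the length `L(T)` of the image at time `T` satisfies
`m ^ 2 * L(T) ≤ M(T) ^ 2 * (1 + 2 * K(T) * T)`. Consequently, if `L(t) ≥ c * exp (lam * t)` for
all `t ≥ 0`, then for every `T` the vorticity gradient is at most
`M(T) * sqrt ((1 + 2 * K(T) * T) / c) * exp (- (lam / 2) * T)` at some point of some image
at a time `t ≤ T`. -/
theorem result (D : Set ℂ) (u : ℝ → ℂ → ℂ) (Φ : ℝ → ℝ → ℂ → ℂ)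
    (hE : IsEuler D u) (hF : IsFlow u Φ) (hD : ∀ s t, 0 ≤ s → 0 ≤ t → ∀ x ∈ D, Φ t s x ∈ D)
    (A B : ℂ) (hB : ‖B‖ ≤ 1) (hseg : ∀ x ∈ Icc (0 : ℝ) 1, A + x * B ∈ D) (K M : ℝ → ℝ)
    (hK : ∀ T t, 0 ≤ t → t ≤ T → ∀ x ∈ Icc (0 : ℝ) 1,
      ‖fderiv ℝ (u t) (Φ t 0 (A + x * B))‖ ≤ K T)
    (hM : ∀ T t, 0 ≤ t → t ≤ T → ∀ x ∈ Icc (0 : ℝ) 1,
      ‖grad (curl (u t)) (Φ t 0 (A + x * B))‖ ≤ M T) :
    (∀ T m : ℝ, 0 ≤ T → 0 ≤ m →
      (∀ t, 0 ≤ t → t ≤ T → ∀ x ∈ Icc (0 : ℝ) 1,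
        m ≤ ‖grad (curl (u t)) (Φ t 0 (A + x * B))‖) →
      m ^ 2 * (∫ x in (0 : ℝ)..1, ‖deriv (fun x : ℝ => Φ T 0 (A + x * B)) x‖) ≤
        M T ^ 2 * (1 + 2 * K T * T)) ∧
    (∀ c lam : ℝ, 0 < c → 0 < lam →
      (∀ t, 0 ≤ t → c * Real.exp (lam * t) ≤
        ∫ x in (0 : ℝ)..1, ‖deriv (fun x : ℝ => Φ t 0 (A + x * B)) x‖) →
      ∀ T, 0 ≤ T → ∃ t, 0 ≤ t ∧ t ≤ T ∧ ∃ x ∈ Icc (0 : ℝ) 1,
        ‖grad (curl (u t)) (Φ t 0 (A + x * B))‖ ≤
          M T * Real.sqrt ((1 + 2 * K T * T) / c) * Real.exp (-(lam / 2) * T)) := by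
  have hK0 : ∀ T, 0 ≤ T → 0 ≤ K T := fun T hT =>
    (norm_nonneg _).trans (hK T 0 le_rfl hT 0 ⟨le_rfl, zero_le_one⟩)
  have hM0 : ∀ T, 0 ≤ T → 0 ≤ M T := fun T hT =>
    (norm_nonneg _).trans (hM T 0 le_rfl hT 0 ⟨le_rfl, zero_le_one⟩)
  constructor
  · intro T m hT hm hlow
    refine (linear_sq hE hF hD A B hseg T (K T) (M T) m hT hm (fun t h1 h2 x hx =>
      ⟨hK T t h1 h2 x hx, hlow t h1 h2 x hx, hM T t h1 h2 x hx⟩)).trans ?_
    have h1 := hK0 T hT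
    have h2 : 0 ≤ M T ^ 2 * (1 + 2 * K T * T) := by positivity
    nlinarith
  · intro c lam hc hlam hlen T hT
    obtain ⟨t, h1, h2, x, hx, h3⟩ := linear_degen hE hF hD A B hseg T (K T) (M T)
      (c * Real.exp (lam * T)) hT (by positivity)
      (fun t h1 h2 x hx => ⟨hK T t h1 h2 x hx, hM T t h1 h2 x hx⟩) (hlen T hT)
    refine ⟨t, h1, h2, x, hx, h3.trans ?_⟩
    have h4 := hK0 T hT
    have h5 : 0 ≤ 1 + 2 * K T * T := by positivity
    have h6 : ‖B‖ * (1 + 2 * K T * T) / (c * Real.exp (lam * T)) ≤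
        ((1 + 2 * K T * T) / c) * Real.exp (-(lam / 2) * T) ^ 2 := by
      have e1 : Real.exp (-(lam / 2) * T) ^ 2 = (Real.exp (lam * T))⁻¹ := by
        rw [← Real.exp_neg, ← Real.exp_nat_mul]
        congr 1
        push_cast
        ring
      rw [e1, ← div_eq_mul_inv, div_div]
      apply div_le_div_of_nonneg_right _ (by positivity)
      nlinarith
    have h7 := Real.sqrt_le_sqrt h6
    rw [Real.sqrt_mul (by positivity), Real.sqrt_sq (Real.exp_pos _).le] at h7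
    have h8 := mul_le_mul_of_nonneg_left h7 (hM0 T hT)
    rwa [← mul_assoc] at h8

end Pool.Agent.Results.MP_1cc704_an.LinearStretch
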