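import Pool.Agent.ES38.Final2Q

/-!
# MP_1cc704_an: exponential stretching forces exponential filamentation

Definitions (file `Pool/Agent/ES38/Basic.lean`): `IsFlow`, `IsEuler`, `curl`,
`SmoothFrontier`, `NonFlat`, `len`.
-/

open Set Pool.Agent.ES38

namespace Pool.Agent.Results.MP_1cc704_an.NonFlatVorticity

/-- Let `u` be a smooth planar field which solves the incompressible Euler equations on the open
set `D` (the plane, or any domain with smooth boundary) for `t ≥ 0`, with flow map `Φ` preserving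
`D`. Assume that the velocity gradient is bounded by `K` and that for some `α ≥ 0` the derivatives
of order `a` of `u` are at most `C * exp ((α * (a - 1) + ε) * t)` for every `ε > 0` (`α = 0`:
subexponential growth of all derivatives). If no point of the segment `{A + x B}` (of length at
most one) is a flat point of the initial vorticity, then for every `j` the length of its image
at time `t` is at most `C * exp ((13 * (j + 1) * α + K / 2 ^ j + ε) * t)` for every `ε > 0`.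
Hence if it is at least `c * exp (lam * t)` for all `t ≥ 0`, with `c, lam > 0`, then `α > 0` and
`lam ≤ 13 * (j + 1) * α + K / 2 ^ j` for every `j`. -/
theorem result (D : Set ℂ) (u : ℝ → ℂ → ℂ) (Φ : ℝ → ℝ → ℂ → ℂ) (hS : SmoothFrontier D)
    (hE : IsEuler D u) (hF : IsFlow u Φ) (hD : ∀ s t, 0 ≤ s → 0 ≤ t → ∀ x ∈ D, Φ t s x ∈ D)
    (K : ℝ) (hK : ∀ t, 0 ≤ t → ∀ x, ‖fderiv ℝ (u t) x‖ ≤ K) (α : ℝ) (hα : 0 ≤ α)
    (hder : ∀ a : ℕ, ∀ ε : ℝ, 0 < ε → ∃ C : ℝ, ∀ t, 0 ≤ t → ∀ x,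
      ‖iteratedFDeriv ℝ a (u t) x‖ ≤ C * Real.exp ((α * ((a - 1 : ℕ) : ℝ) + ε) * t))
    (A B : ℂ) (hB : ‖B‖ ≤ 1) (hseg : ∀ x ∈ Icc (0 : ℝ) 1, A + x * B ∈ D)
    (hnf : ∀ x ∈ Icc (0 : ℝ) 1, NonFlat (curl (u 0)) (A + x * B)) :
    (∀ j : ℕ, ∀ ε : ℝ, 0 < ε → ∃ C : ℝ, ∀ t, 0 ≤ t → len Φ A B t ≤
      C * Real.exp ((13 * ((j : ℝ) + 1) * α + K / 2 ^ j + ε) * t)) ∧
    (∀ c lam : ℝ, 0 < c → 0 < lam → (∀ t, 0 ≤ t → c * Real.exp (lam * t) ≤ len Φ A B t) →
      0 < α ∧ ∀ j : ℕ, lam ≤ 13 * ((j : ℝ) + 1) * α + K / 2 ^ j) := by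
  have h : ∀ j : ℕ, ∀ ε : ℝ, 0 < ε → ∃ C : ℝ, ∀ t, 0 ≤ t → len Φ A B t ≤
      C * Real.exp ((13 * ((j : ℝ) + 1) * α + K / 2 ^ j + ε) * t) :=
    fun j ε hε => main_allQ D u Φ hS hE hF hD K hK α hα hder A B hB hseg hnf j ε hε
  refine ⟨h, fun c lam hc hlam hlow => ?_⟩
  have h2 : ∀ j : ℕ, lam ≤ 13 * ((j : ℝ) + 1) * α + K / 2 ^ j :=
    fun j => rate_le Φ A B _ (h j) c lam hc hlow
  refine ⟨?_, h2⟩
  rcases hα.eq_or_lt with h0 | h0
  · exfalso
    obtain ⟨j, hj⟩ := pow_unbounded_of_one_lt (K / lam) (one_lt_two : (1 : ℝ) < 2)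
    have h3 := h2 j
    rw [← h0, mul_zero, zero_add, le_div_iff₀ (by positivity)] at h3
    rw [div_lt_iff₀ hlam] at hj
    linarith
  · exact h0

end Pool.Agent.Results.MP_1cc704_an.NonFlatVorticity
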